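import Mathlib
import Pool.Agent.H68R2.BP.Props2

open scoped ComplexOrder InnerProductSpace ComplexConjugate Topology
open Finset Filter

noncomputable section

namespace H68R2.BP.KtAux

open H759R2.Kad H744R2.KZ H68R2.BP MeasureTheory

theorem cosh_ge (x : ℝ) : Real.exp |x| / 2 ≤ Real.cosh x := by
  rw [← Real.cosh_abs x, Real.cosh_eq]
  have := Real.exp_pos (-|x|)
  linarith

theorem int_exp_abs (a : ℝ) (ha : 0 < a) : Integrable (fun t : ℝ => Real.exp (-a * |t|)) := by
  have h1 : IntegrableOn (fun t : ℝ => Real.exp (-a * |t|)) (Set.Ioi 0) := by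
    apply (integrableOn_exp_mul_Ioi (neg_lt_zero.mpr ha) 0).congr_fun _ measurableSet_Ioi
    intro t ht
    simp only
    rw [abs_of_pos ht]
  have h2 : IntegrableOn (fun t : ℝ => Real.exp (-a * |t|)) (Set.Iic 0) := by
    apply (integrableOn_exp_mul_Iic ha 0).congr_fun _ measurableSet_Iic
    intro t ht
    simp only
    rw [abs_of_nonpos ht]
    congr 1; ring
  have := h2.union h1
  rwa [Set.Iic_union_Ioi, integrableOn_univ] at this

theorem t_exp (d x : ℝ) (hd : 0 < d) : x ≤ (1 / d) * Real.exp (d * x) := by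
  have := Real.add_one_le_exp (d * x)
  rw [one_div, inv_mul_eq_div, le_div_iff₀ hd]
  linarith

theorem inv_cosh_le (t : ℝ) : 1 / (2 * Real.cosh (Real.pi * t)) ≤ Real.exp (-Real.pi * |t|) := by
  have h := cosh_ge (Real.pi * t)
  rw [abs_mul, abs_of_pos Real.pi_pos] at h
  have h1 : 0 < Real.exp (Real.pi * |t|) := Real.exp_pos _
  rw [neg_mul, Real.exp_neg, ← one_div]
  apply one_div_le_one_div_of_le h1
  linarith

theorem inv_cosh_pos (t : ℝ) : 0 < 1 / (2 * Real.cosh (Real.pi * t)) := by
  have := Real.cosh_pos (Real.pi * t)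
  positivity

theorem kt_nonneg (θ t : ℝ) : 0 ≤ kt θ t := by
  unfold kt
  have := Real.cosh_pos (Real.pi * t)
  positivity

theorem kt_le (θ t : ℝ) : kt θ t ≤ Real.exp (-(Real.pi - |θ|) * |t|) := by
  have e : kt θ t = Real.exp (-θ * t) * (1 / (2 * Real.cosh (Real.pi * t))) := by
    unfold kt; ring
  rw [e]
  calc Real.exp (-θ * t) * (1 / (2 * Real.cosh (Real.pi * t)))
      ≤ Real.exp (|θ| * |t|) * Real.exp (-Real.pi * |t|) := by
        apply mul_le_mul _ (inv_cosh_le t) (inv_cosh_pos t).le (Real.exp_pos _).le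
        apply Real.exp_le_exp.mpr
        rw [← abs_mul, neg_mul]
        exact neg_le_abs _
    _ = Real.exp (-(Real.pi - |θ|) * |t|) := by
        rw [← Real.exp_add]; congr 1; ring

theorem kt_cont (θ : ℝ) : Continuous (kt θ) := by
  unfold kt
  apply Continuous.div
  · fun_prop
  · exact continuous_const.mul (Real.continuous_cosh.comp (by fun_prop))
  · intro x
    have := Real.cosh_pos (Real.pi * x)
    positivity

theorem kt_int (θ : ℝ) (hθ : |θ| < Real.pi) : Integrable (kt θ) := by
  apply (int_exp_abs (Real.pi - |θ|) (by linarith)).mono' (kt_cont θ).aestronglyMeasurable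
  filter_upwards with t
  rw [Real.norm_eq_abs, abs_of_nonneg (kt_nonneg θ t)]
  exact kt_le θ t

theorem kt_smul_int {E : Type*} [NormedAddCommGroup E] [NormedSpace ℂ E] (θ : ℝ)
    (hθ : |θ| < Real.pi) (F : ℝ → E) (hF : Continuous F) (C : ℝ) (hC : ∀ t, ‖F t‖ ≤ C) :
    Integrable (fun t => (kt θ t : ℂ) • F t) := by
  apply ((kt_int θ hθ).mul_const C).mono'
  · exact ((Complex.continuous_ofReal.comp (kt_cont θ)).smul hF).aestronglyMeasurable
  · filter_upwards with t
    rw [norm_smul, Complex.norm_real, Real.norm_eq_abs, abs_of_nonneg (kt_nonneg θ t)]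
    exact mul_le_mul_of_nonneg_left (hC t) (kt_nonneg θ t)

end H68R2.BP.KtAux
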