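import Mathlib
import Pool.Agent.H68R2.BP.Props2
import Pool.Agent.H66R2.BP.KtAux

open scoped ComplexOrder InnerProductSpace ComplexConjugate Topology
open Finset Filter

noncomputable section

namespace H68R2.BP

open H759R2.Kad H744R2.KZ

namespace TFouAux

open MeasureTheory KtAux

theorem norm_cexp (s : ℂ) (t : ℝ) : ‖Complex.exp (-s * t)‖ ≤ Real.exp (|s.re| * |t|) := by
  rw [Complex.norm_exp]
  apply Real.exp_le_exp.mpr
  simp only [Complex.mul_re, Complex.neg_re, Complex.ofReal_re, Complex.neg_im, Complex.ofReal_im,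
    mul_zero, sub_zero]
  rw [← abs_mul, neg_mul]
  exact neg_le_abs _

theorem diff_G (f : ℝ → ℂ) (hf : Continuous f) (C : ℝ) (hC0 : 0 ≤ C)
    (hC : ∀ t, ‖f t‖ ≤ C * Real.exp (-Real.pi * |t|)) (s0 : ℂ) (hs0 : |s0.re| < Real.pi) :
    DifferentiableAt ℂ (fun s : ℂ => ∫ t : ℝ, Complex.exp (-s * t) * f t) s0 := by
  set ε := (Real.pi - |s0.re|) / 2 with hε
  have hε0 : 0 < ε := by rw [hε]; linarith
  have hint : ∀ a : ℝ, a < Real.pi → Integrable
      (fun t : ℝ => Real.exp (a * |t|) * (C * Real.exp (-Real.pi * |t|))) := by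
    intro a ha
    have := (int_exp_abs (Real.pi - a) (by linarith)).const_mul C
    apply this.congr
    filter_upwards with t
    rw [mul_left_comm, ← Real.exp_add]
    congr 2; ring
  have hmeas : ∀ s : ℂ, AEStronglyMeasurable (fun t : ℝ => Complex.exp (-s * t) * f t) volume := by
    intro s
    apply Continuous.aestronglyMeasurable
    exact (Complex.continuous_exp.comp (continuous_const.mul Complex.continuous_ofReal)).mul hf
  have key := hasDerivAt_integral_of_dominated_loc_of_deriv_le (μ := volume) (𝕜 := ℂ)
    (F := fun (s : ℂ) (t : ℝ) => Complex.exp (-s * t) * f t)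
    (F' := fun (s : ℂ) (t : ℝ) => (-t : ℂ) * Complex.exp (-s * t) * f t) (x₀ := s0)
    (s := Metric.ball s0 ε)
    (bound := fun t : ℝ => (2 / ε) * (Real.exp ((Real.pi - ε / 2) * |t|) *
      (C * Real.exp (-Real.pi * |t|)))) (Metric.ball_mem_nhds s0 hε0)
    (Filter.Eventually.of_forall hmeas) ?_ ?_ ?_ ?_ ?_
  · exact key.2.differentiableAt
  · apply (hint |s0.re| hs0).mono' (hmeas s0)
    filter_upwards with t
    rw [norm_mul]
    exact mul_le_mul (norm_cexp s0 t) (hC t) (norm_nonneg _) (Real.exp_pos _).le
  · apply Continuous.aestronglyMeasurable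
    exact ((Complex.continuous_ofReal.neg).mul
      (Complex.continuous_exp.comp (continuous_const.mul Complex.continuous_ofReal))).mul hf
  · filter_upwards with t
    intro s hs
    rw [Metric.mem_ball, Complex.dist_eq] at hs
    have h1 : |s.re| ≤ Real.pi - ε := by
      have h2 : |s.re - s0.re| ≤ ‖s - s0‖ := by
        rw [← Complex.sub_re]; exact Complex.abs_re_le_norm _
      have h3 : |s.re| ≤ |s.re - s0.re| + |s0.re| := by
        have := abs_add_le (s.re - s0.re) s0.re
        simpa using this
      have h4 : |s0.re| = Real.pi - 2 * ε := by rw [hε]; ring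
      linarith
    rw [norm_mul, norm_mul, norm_neg, Complex.norm_real, Real.norm_eq_abs]
    have h5 := t_exp (ε / 2) |t| (by linarith)
    calc |t| * ‖Complex.exp (-s * t)‖ * ‖f t‖
        ≤ ((2 / ε) * Real.exp (ε / 2 * |t|)) * Real.exp ((Real.pi - ε) * |t|) *
          (C * Real.exp (-Real.pi * |t|)) := by
          apply mul_le_mul _ (hC t) (norm_nonneg _) (by positivity)
          apply mul_le_mul _ _ (norm_nonneg _) (by positivity)
          · calc |t| ≤ _ := h5
              _ = _ := by congr 1; rw [one_div_div]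
          · exact (norm_cexp s t).trans (Real.exp_le_exp.mpr
              (mul_le_mul_of_nonneg_right h1 (abs_nonneg _)))
      _ = _ := by
          rw [mul_assoc (2 / ε), ← Real.exp_add, mul_assoc (2 / ε)]
          congr 4; ring
  · exact (hint _ (by linarith)).const_mul _
  · filter_upwards with t
    intro s _
    have h1 : HasDerivAt (fun s : ℂ => -s * (t : ℂ)) (-t : ℂ) s := by
      have := (hasDerivAt_id s).neg.mul_const (t : ℂ)
      simpa using this
    have h2 := (h1.cexp).mul_const (f t)
    have e : -(t : ℂ) * Complex.exp (-s * t) * f t = Complex.exp (-s * t) * -(t : ℂ) * f t := by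
      ring
    show HasDerivAt (fun s : ℂ => Complex.exp (-s * t) * f t)
      (-(t : ℂ) * Complex.exp (-s * t) * f t) s
    rw [e]
    exact h2

end TFouAux

open TFouAux KtAux MeasureTheory

theorem prove_T_fou : T_fou := by
  intro g hg hb h
  obtain ⟨C, hC⟩ := hb
  have hC0 : 0 ≤ C := (norm_nonneg _).trans (hC 0)
  set f : ℝ → ℂ := fun t => ((1 / (2 * Real.cosh (Real.pi * t)) : ℝ) : ℂ) * g t with hf
  have hfc : Continuous f := by
    apply Continuous.mul _ hg
    apply Complex.continuous_ofReal.comp
    apply Continuous.div continuous_const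
    · exact continuous_const.mul (Real.continuous_cosh.comp (by fun_prop))
    · intro x
      have := Real.cosh_pos (Real.pi * x)
      positivity
  have hfb : ∀ t, ‖f t‖ ≤ C * Real.exp (-Real.pi * |t|) := by
    intro t
    rw [hf]
    simp only
    rw [norm_mul, Complex.norm_real, Real.norm_eq_abs, abs_of_nonneg (inv_cosh_pos t).le, mul_comm]
    exact mul_le_mul (hC t) (inv_cosh_le t) (inv_cosh_pos t).le hC0
  set G : ℂ → ℂ := fun s => ∫ t : ℝ, Complex.exp (-s * t) * f t with hG
  set S : Set ℂ := {s : ℂ | |s.re| < Real.pi} with hS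
  have hSo : IsOpen S := isOpen_lt (Complex.continuous_re.abs) continuous_const
  have hSc : IsPreconnected S := by
    have : Convex ℝ S := by
      have e : S = Complex.re ⁻¹' (Set.Ioo (-Real.pi) Real.pi) := by
        ext s
        simp [hS, abs_lt]
      rw [e]
      exact (convex_Ioo _ _).linear_preimage Complex.reLm
    exact this.isPreconnected
  have hGd : DifferentiableOn ℂ G S := fun s hs =>
    (diff_G f hfc C hC0 hfb s hs).differentiableWithinAt
  have hGa : AnalyticOnNhd ℂ G S := hGd.analyticOnNhd hSo
  have hG0 : ∀ θ : ℝ, |θ| < Real.pi → G θ = 0 := by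
    intro θ hθ
    rw [← h θ hθ]
    apply integral_congr_ae
    filter_upwards with t
    simp only [hf, kt]
    push_cast
    ring
  have hfreq : ∃ᶠ z in 𝓝[≠] (0 : ℂ), G z = 0 := by
    have ht : Tendsto (fun n : ℕ => ((1 / ((n : ℝ) + 1) : ℝ) : ℂ)) atTop (𝓝[≠] (0 : ℂ)) := by
      rw [tendsto_nhdsWithin_iff]
      constructor
      · have := (Complex.continuous_ofReal.tendsto 0).comp
          (tendsto_one_div_add_atTop_nhds_zero_nat (𝕜 := ℝ))
        rw [Complex.ofReal_zero] at this
        exact this
      · filter_upwards with n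
        simp only [Set.mem_compl_iff, Set.mem_singleton_iff]
        intro h0
        have : (1 / ((n : ℝ) + 1)) = 0 := by exact_mod_cast h0
        have h1 : (0 : ℝ) < 1 / ((n : ℝ) + 1) := by positivity
        linarith
    apply ht.frequently
    apply Eventually.frequently
    filter_upwards with n
    apply hG0
    have h1 : (0 : ℝ) < 1 / ((n : ℝ) + 1) := by positivity
    rw [abs_of_pos h1]
    have h2 : 1 / ((n : ℝ) + 1) ≤ 1 := by
      rw [div_le_one (by positivity)]
      have : (0 : ℝ) ≤ n := Nat.cast_nonneg n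
      linarith
    have := Real.pi_gt_three
    linarith
  have hzero := hGa.eqOn_zero_of_preconnected_of_frequently_eq_zero hSc
    (show (0 : ℂ) ∈ S by simp [hS, Real.pi_pos]) hfreq
  have hfint : Integrable f := by
    apply ((int_exp_abs Real.pi Real.pi_pos).const_mul C).mono' hfc.aestronglyMeasurable
    filter_upwards with t
    exact hfb t
  have hF : FourierTransform.fourier f = 0 := by
    funext w
    rw [Real.fourier_eq']
    have h1 : G (2 * Real.pi * w * Complex.I) = 0 := by
      apply hzero
      simp only [hS, Set.mem_ofPred_eq]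
      have : (2 * (Real.pi : ℂ) * w * Complex.I).re = 0 := by simp
      rw [this, abs_zero]
      exact Real.pi_pos
    rw [Pi.zero_apply, ← h1]
    apply integral_congr_ae
    filter_upwards with t
    simp only [smul_eq_mul]
    congr 2
    simp only [RCLike.inner_apply, conj_trivial]
    push_cast
    ring
  have hinv := hfc.fourierInv_fourier_eq hfint (by rw [hF]; exact integrable_zero _ _ _)
  have h0 : f 0 = 0 := by
    rw [← hinv, hF, Real.fourierInv_eq']
    simp
  have h1 : f 0 = ((1 / 2 : ℝ) : ℂ) * g 0 := by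
    simp [hf]
  rw [h1] at h0
  rcases mul_eq_zero.mp h0 with h2 | h2
  · exfalso
    have : (1 / 2 : ℝ) = 0 := by exact_mod_cast h2
    norm_num at this
  · exact h2

end H68R2.BP
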