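import Mathlib
import Pool.Agent.H68R2.BP.Props2

open scoped ComplexOrder InnerProductSpace ComplexConjugate Topology
open Finset Filter

noncomputable section

namespace H68R2.BP

open H759R2.Kad H744R2.KZ

namespace TLocAux

variable {H : Type} [NormedAddCommGroup H] [InnerProductSpace ℂ H] [CompleteSpace H]

theorem expadd {x y : H →L[ℂ] H} (hxy : Commute x y) :
    NormedSpace.exp (x + y) = NormedSpace.exp x * NormedSpace.exp y := by
  let _ : NormedAlgebra ℚ (H →L[ℂ] H) := NormedAlgebra.restrictScalars ℚ ℂ _
  exact NormedSpace.exp_add_of_commute hxy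

theorem starexp (x : H →L[ℂ] H) : star (NormedSpace.exp x) = NormedSpace.exp (star x) := by
  let _ : NormedAlgebra ℚ (H →L[ℂ] H) := NormedAlgebra.restrictScalars ℚ ℂ _
  exact NormedSpace.star_exp x

theorem expcomm {x y : H →L[ℂ] H} (hxy : Commute x y) : Commute (NormedSpace.exp x) y := by
  let _ : NormedAlgebra ℚ (H →L[ℂ] H) := NormedAlgebra.restrictScalars ℚ ℂ _
  exact hxy.exp_left

end TLocAux

open TLocAux

theorem prove_T_loc (h1 : T_syl) (h2 : T_unq) : T_loc := by
  intro H _ _ _ R T hROp h c hh hc hhR hcR hhc hexp hhalf z x θ hθ heq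
  set lam : ℂ := Complex.exp (Complex.I * θ / 2) with hlam
  set lam' : ℂ := Complex.exp (-(Complex.I * θ / 2)) with hlam'
  have hconj : (starRingEnd ℂ) lam = lam' := by
    rw [hlam, hlam', ← Complex.exp_conj]
    congr 1
    simp only [map_div₀, map_mul, Complex.conj_I, Complex.conj_ofReal, Complex.conj_ofNat]
    ring
  have hre : 0 < lam.re := by
    have e1 : lam = Complex.exp (((θ / 2 : ℝ) : ℂ) * Complex.I) := by
      rw [hlam]; congr 1; push_cast; ring
    rw [e1, Complex.exp_ofReal_mul_I_re]
    apply Real.cos_pos_of_mem_Ioo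
    rw [abs_lt] at hθ
    constructor <;> linarith [hθ.1, hθ.2]
  set E : H →L[ℂ] H := NormedSpace.exp ((1 / 2 : ℂ) • h) with hE
  set E' : H →L[ℂ] H := NormedSpace.exp (-(1 / 2 : ℂ) • h) with hE'
  set A : H →L[ℂ] H := NormedSpace.exp h with hA
  have comE : ∀ y : H →L[ℂ] H, h * y = y * h → ∀ r : ℂ,
      NormedSpace.exp (r • h) * y = y * NormedSpace.exp (r • h) := by
    intro y hy r
    have : Commute (r • h) y := by
      apply Commute.smul_left
      exact hy
    exact (expcomm this).eq
  have hEE : E * E = A := by
    rw [hE, hA, ← expadd (Commute.refl _)]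
    congr 1
    rw [← add_smul]; norm_num
  have hEE' : E * E' = 1 := by
    rw [hE, hE', ← expadd]
    · rw [← add_smul]; norm_num
    · exact ((Commute.refl h).smul_left _).smul_right _
  have hE'E : E' * E = 1 := by
    rw [hE, hE', ← expadd]
    · rw [← add_smul]; norm_num
    · exact ((Commute.refl h).smul_left _).smul_right _
  have ER : E * R = R * E := comE R hhR _
  have Ec : E * c = c * E := comE c hhc _
  have AR : A * R = R * A := by
    rw [← hEE, mul_assoc, ER, ← mul_assoc, ER, mul_assoc]
  have Ac : A * c = c * A := by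
    rw [← hEE, mul_assoc, Ec, ← mul_assoc, Ec, mul_assoc]
  have starE : star E = E := by
    rw [hE, starexp, star_smul, hh]
    congr 2
    simp
  have hX := h1 H h (c * z * c) hh θ hθ
  simp only at hX
  set X : H →L[ℂ] H := ∫ t : ℝ, (kt θ t : ℂ) •
      (NormedSpace.exp ((Complex.I * t) • h) * (c * z * c) *
        NormedSpace.exp (-(Complex.I * t) • h)) with hXdef
  set kap : ℂ := ((2 * Real.cos (θ / 2) * ∫ t : ℝ, kt θ t : ℝ) : ℂ) with hkap
  -- multiply by E
  have hX2 : kap • (E * (c * z * c) * E) = lam • (A * X) + lam' • (X * A) := by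
    have : E * (kap • (c * z * c)) * E = E * (lam • (E * X * E') + lam' • (E' * X * E)) * E := by
      rw [← hX]
    rw [mul_smul_comm, smul_mul_assoc] at this
    rw [this, mul_add, add_mul, mul_smul_comm, smul_mul_assoc, mul_smul_comm, smul_mul_assoc]
    congr 2
    · calc E * (E * X * E') * E = (E * E) * X * (E' * E) := by simp only [mul_assoc]
        _ = A * X := by rw [hEE, hE'E, mul_one]
    · calc E * (E' * X * E) * E = (E * E') * X * (E * E) := by simp only [mul_assoc]
        _ = X * A := by rw [hEE, hEE', one_mul]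
  -- the equation for x
  have hTc : T * c = E * R * c := hhalf.symm
  have hcT : c * T = c * R * E := by
    have := congrArg star hTc
    rw [star_mul, star_mul, star_mul, hROp.T_sa, hROp.R_sa, hc, starE] at this
    rw [this, mul_assoc]
  have h2R : ((2 : ℂ) • 1 - R) * c = A * R * c := hexp.symm
  have h2R' : c * ((2 : ℂ) • 1 - R) = c * R * A := by
    have e1 : c * ((2 : ℂ) • 1 - R) = ((2 : ℂ) • 1 - R) * c := by
      rw [mul_sub, sub_mul, hcR]; simp
    rw [e1, h2R, AR, mul_assoc, Ac, ← mul_assoc, ← hcR]
  have cRE : c * R * E = R * E * c := by rw [hcR, mul_assoc, ← Ec, ← mul_assoc]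
  have ERc : E * R * c = c * E * R := by rw [mul_assoc, ← hcR, ← mul_assoc, Ec]
  have cRA : c * R * A = R * A * c := by rw [hcR, mul_assoc, ← Ac, ← mul_assoc]
  have ARc : A * R * c = c * A * R := by rw [mul_assoc, ← hcR, ← mul_assoc, Ac]
  set B : H →L[ℂ] H := E * (c * z * c) * E - (lam • (A * (c * x * c)) +
    lam' • ((c * x * c) * A)) with hB
  have hB0 : R * B * R = 0 := by
    have e1 : c * (T * z * T) * c = R * (E * (c * z * c) * E) * R := by
      calc c * (T * z * T) * c = (c * T) * z * (T * c) := by simp only [mul_assoc]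
        _ = (R * E * c) * z * (c * E * R) := by rw [hcT, hTc, cRE, ERc]
        _ = R * (E * (c * z * c) * E) * R := by simp only [mul_assoc]
    have e2 : c * (((2 : ℂ) • 1 - R) * x * R) * c = R * (A * (c * x * c)) * R := by
      calc c * (((2 : ℂ) • 1 - R) * x * R) * c = (c * ((2 : ℂ) • 1 - R)) * x * (R * c) := by
            simp only [mul_assoc]
        _ = (R * A * c) * x * (c * R) := by rw [h2R', cRA, hcR]
        _ = R * (A * (c * x * c)) * R := by simp only [mul_assoc]
    have e3 : c * (R * x * ((2 : ℂ) • 1 - R)) * c = R * ((c * x * c) * A) * R := by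
      calc c * (R * x * ((2 : ℂ) • 1 - R)) * c = (c * R) * x * (((2 : ℂ) • 1 - R) * c) := by
            simp only [mul_assoc]
        _ = (R * c) * x * (c * A * R) := by rw [h2R, ARc, hcR]
        _ = R * ((c * x * c) * A) * R := by simp only [mul_assoc]
    have e4 := congrArg (fun y => c * y * c) heq
    simp only [mul_add, add_mul, mul_smul_comm, smul_mul_assoc] at e4
    rw [e1, e2, e3] at e4
    rw [hB, mul_sub, sub_mul, e4, mul_add, add_mul]
    simp only [mul_smul_comm, smul_mul_assoc, sub_self]
  have hBR : B * R = 0 := by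
    ext y
    have := congrArg (fun F : H →L[ℂ] H => F y) hB0
    simp only [ContinuousLinearMap.mul_apply, ContinuousLinearMap.zero_apply] at this ⊢
    exact hROp.R_inj _ this
  have hBs : R * star B = 0 := by
    have := congrArg star hBR
    rwa [star_mul, star_zero, hROp.R_sa] at this
  have hB1 : star B = 0 := by
    ext y
    have := congrArg (fun F : H →L[ℂ] H => F y) hBs
    simp only [ContinuousLinearMap.mul_apply, ContinuousLinearMap.zero_apply] at this ⊢
    exact hROp.R_inj _ this
  have hB2 : B = 0 := by
    have := congrArg star hB1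
    rwa [star_star, star_zero] at this
  have hkey : E * (c * z * c) * E = lam • (A * (c * x * c)) + lam' • ((c * x * c) * A) := by
    have := hB2
    rw [hB, sub_eq_zero] at this
    exact this
  have hD : kap • (c * x * c) - X = 0 := by
    apply h2 H h _ hh lam hre
    rw [hconj, ← hA, mul_sub, sub_mul, smul_sub, smul_sub]
    have e5 : lam • (A * kap • (c * x * c)) + lam' • (kap • (c * x * c) * A)
        = lam • (A * X) + lam' • (X * A) := by
      rw [← hX2, hkey, smul_add, mul_smul_comm, smul_mul_assoc, smul_comm lam kap,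
        smul_comm lam' kap]
    calc lam • (A * kap • (c * x * c)) - lam • (A * X) +
          (lam' • (kap • (c * x * c) * A) - lam' • (X * A))
        = (lam • (A * kap • (c * x * c)) + lam' • (kap • (c * x * c) * A)) -
          (lam • (A * X) + lam' • (X * A)) := by abel
      _ = 0 := by rw [e5, sub_self]
  exact sub_eq_zero.mp hD

end H68R2.BP
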