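import Mathlib
import Pool.Agent.H68R2.BP.Props2
import Pool.Agent.H66R2.BP.KtAux
import Pool.Agent.H66R2.BP.TLoc

open scoped ComplexOrder InnerProductSpace ComplexConjugate Topology
open Finset Filter

noncomputable section

namespace H68R2.BP

open H759R2.Kad H744R2.KZ

namespace TSylAux

open MeasureTheory KtAux TLocAux

/-- `sinh (π w)` -/
def Sh (w : ℂ) : ℂ := Complex.sinh (Real.pi * w)

theorem Sh_diff : Differentiable ℂ Sh := by
  unfold Sh
  fun_prop

theorem Sh_zero : Sh 0 = 0 := by simp [Sh]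

theorem Sh_deriv : deriv Sh 0 = Real.pi := by
  have h : HasDerivAt (fun w : ℂ => (Real.pi : ℂ) * w) (Real.pi : ℂ) 0 := by
    simpa using (hasDerivAt_id (0 : ℂ)).const_mul (Real.pi : ℂ)
  have := h.csinh.deriv
  unfold Sh
  rw [this]
  simp

/-- lower bound for the norm of `sinh` -/
theorem norm_Sh (t s : ℝ) : |Real.sinh (Real.pi * t)| ≤ ‖Sh (t + s * Complex.I)‖ ∧
    |Real.sin (Real.pi * s)| ≤ ‖Sh (t + s * Complex.I)‖ := by
  have e : Sh (t + s * Complex.I) = ((Real.sinh (Real.pi * t) * Real.cos (Real.pi * s) : ℝ) : ℂ) +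
      ((Real.cosh (Real.pi * t) * Real.sin (Real.pi * s) : ℝ) : ℂ) * Complex.I := by
    unfold Sh
    rw [mul_add, Complex.sinh_add, ← mul_assoc, ← Complex.ofReal_mul, ← Complex.ofReal_mul,
      Complex.cosh_mul_I, Complex.sinh_mul_I]
    push_cast
    ring
  have hn : ‖Sh (t + s * Complex.I)‖ ^ 2 =
      Real.sinh (Real.pi * t) ^ 2 + Real.sin (Real.pi * s) ^ 2 := by
    rw [← Complex.normSq_eq_norm_sq, e, Complex.normSq_add_mul_I]
    have h1 := Real.cosh_sq (Real.pi * t)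
    have h2 := Real.sin_sq_add_cos_sq (Real.pi * s)
    rw [mul_pow, mul_pow, h1]
    have : Real.cos (Real.pi * s) ^ 2 = 1 - Real.sin (Real.pi * s) ^ 2 := by linarith
    rw [this]; ring
  constructor
  · apply abs_le_of_sq_le_sq _ (norm_nonneg _)
    rw [hn]; nlinarith [sq_nonneg (Real.sin (Real.pi * s))]
  · apply abs_le_of_sq_le_sq _ (norm_nonneg _)
    rw [hn]; nlinarith [sq_nonneg (Real.sinh (Real.pi * t))]

theorem Sh_ne (w : ℂ) (hw : w ≠ 0) (h : |w.im| < 1) : Sh w ≠ 0 := by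
  intro h0
  have hw' : w = (w.re : ℂ) + (w.im : ℂ) * Complex.I := (Complex.re_add_im w).symm
  have h1 := norm_Sh w.re w.im
  rw [← hw', h0, norm_zero] at h1
  have h2 : Real.sinh (Real.pi * w.re) = 0 := by
    have := le_antisymm h1.1 (abs_nonneg _); rwa [abs_eq_zero] at this
  have h3 : Real.sin (Real.pi * w.im) = 0 := by
    have := le_antisymm h1.2 (abs_nonneg _); rwa [abs_eq_zero] at this
  rw [Real.sinh_eq_zero] at h2
  have h4 : w.re = 0 := by
    rcases mul_eq_zero.mp h2 with h | h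
    · exact absurd h Real.pi_ne_zero
    · exact h
  have h5 : w.im = 0 := by
    rw [abs_lt] at h
    have hp := Real.pi_pos
    have := (Real.sin_eq_zero_iff_of_lt_of_lt (by nlinarith) (by nlinarith)).mp h3
    rcases mul_eq_zero.mp this with h | h
    · exact absurd h Real.pi_ne_zero
    · exact h
  apply hw
  rw [hw', h4, h5]; simp

theorem dS_ne (w : ℂ) (h : |w.im| < 1) : dslope Sh 0 w ≠ 0 := by
  by_cases hw : w = 0
  · rw [hw, dslope_same, Sh_deriv]
    exact_mod_cast Real.pi_ne_zero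
  · rw [dslope_of_ne _ hw, slope_def_module, Sh_zero]
    simp only [sub_zero, smul_eq_mul]
    exact mul_ne_zero (inv_ne_zero hw) (Sh_ne w hw h)

theorem dS_diff : Differentiable ℂ (dslope Sh 0) := by
  rw [← differentiableOn_univ, Complex.differentiableOn_dslope Filter.univ_mem,
    differentiableOn_univ]
  exact Sh_diff

variable {H : Type} [NormedAddCommGroup H] [InnerProductSpace ℂ H] [CompleteSpace H]

/-- the entire operator valued function -/
def K (h z : H →L[ℂ] H) (w : ℂ) : H →L[ℂ] H :=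
  NormedSpace.exp ((Complex.I * w) • h) * z * NormedSpace.exp (-(Complex.I * w) • h)

theorem K_zero (h z : H →L[ℂ] H) : K h z 0 = z := by
  unfold K
  simp

theorem exp_diff (h : H →L[ℂ] H) (c : ℂ) :
    Differentiable ℂ (fun w : ℂ => NormedSpace.exp ((c * w) • h)) := by
  intro w
  have h1 := (hasDerivAt_exp_smul_const h (c * w)).differentiableAt
  have h2 : DifferentiableAt ℂ (fun w : ℂ => c * w) w := by fun_prop
  exact h1.comp w h2

theorem K_diff (h z : H →L[ℂ] H) : Differentiable ℂ (K h z) := by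
  unfold K
  have h2 : (fun w : ℂ => NormedSpace.exp (-(Complex.I * w) • h)) =
      fun w : ℂ => NormedSpace.exp ((-Complex.I * w) • h) := by
    funext w; rw [neg_mul]
  have h3 := exp_diff h (-Complex.I)
  rw [← h2] at h3
  exact ((exp_diff h Complex.I).mul_const z).mul h3

theorem dK_diff (h z : H →L[ℂ] H) : Differentiable ℂ (dslope (K h z) 0) := by
  rw [← differentiableOn_univ, Complex.differentiableOn_dslope Filter.univ_mem,
    differentiableOn_univ]
  exact K_diff h z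

theorem K_add (h z : H →L[ℂ] H) (a b : ℂ) : K h z (a + b) =
    NormedSpace.exp ((Complex.I * a) • h) * K h z b * NormedSpace.exp (-(Complex.I * a) • h) := by
  unfold K
  have e1 : (Complex.I * (a + b)) • h = (Complex.I * a) • h + (Complex.I * b) • h := by
    rw [← add_smul]; congr 1; ring
  have e2 : (-(Complex.I * (a + b))) • h = (-(Complex.I * b)) • h + (-(Complex.I * a)) • h := by
    rw [← add_smul]; congr 1; ring
  rw [e1, e2, expadd (((Commute.refl h).smul_left _).smul_right _),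
    expadd (((Commute.refl h).smul_left _).smul_right _)]
  simp only [mul_assoc]

/-- conjugation by the unitary group is a contraction -/
theorem exp_unitary (h : H →L[ℂ] H) (hh : star h = h) (t : ℝ) :
    ‖NormedSpace.exp ((Complex.I * t) • h)‖ ≤ 1 := by
  set U := NormedSpace.exp ((Complex.I * t) • h) with hU
  have hs : star U * U = 1 := by
    rw [hU, starexp, ← expadd]
    · rw [star_smul, hh, ← add_smul]
      have : star (Complex.I * (t : ℂ)) + Complex.I * t = 0 := by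
        simp
      rw [this]; simp
    · rw [star_smul, hh]
      exact ((Commute.refl h).smul_left _).smul_right _
  have h1 : ‖U‖ * ‖U‖ ≤ 1 := by
    rw [← CStarRing.norm_star_mul_self, hs]
    exact ContinuousLinearMap.norm_id_le
  nlinarith [norm_nonneg U]


theorem K_bound (h z : H →L[ℂ] H) (hh : star h = h) : ∃ M : ℝ, 0 ≤ M ∧ ∀ t s : ℝ, |s| ≤ 1 / 2 →
    ‖K h z (t + s * Complex.I)‖ ≤ M := by
  have hc : Continuous (fun s : ℝ => K h z ((s : ℂ) * Complex.I)) :=
    (K_diff h z).continuous.comp (by fun_prop)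
  obtain ⟨M, hM⟩ := (isCompact_Icc (a := (-(1 / 2) : ℝ)) (b := 1 / 2)).exists_bound_of_continuousOn
    hc.continuousOn
  have hM0 : 0 ≤ M := (norm_nonneg _).trans (hM 0 (by constructor <;> norm_num))
  refine ⟨M, hM0, fun t s hs => ?_⟩
  rw [K_add]
  have h1 := exp_unitary h hh t
  have h2 := exp_unitary h hh (-t)
  have e : (Complex.I * ((-t : ℝ) : ℂ)) = -(Complex.I * (t : ℂ)) := by push_cast; ring
  rw [e] at h2
  have h3 := hM s (abs_le.mp hs)
  calc _ ≤ ‖NormedSpace.exp ((Complex.I * t) • h) * K h z (s * Complex.I)‖ *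
        ‖NormedSpace.exp (-(Complex.I * t) • h)‖ := norm_mul_le _ _
    _ ≤ (‖NormedSpace.exp ((Complex.I * t) • h)‖ * ‖K h z (s * Complex.I)‖) *
        ‖NormedSpace.exp (-(Complex.I * t) • h)‖ := by gcongr; exact norm_mul_le _ _
    _ ≤ (1 * M) * 1 := by gcongr
    _ = M := by ring

/-- the function under the contour integral -/
def Psi (θ : ℝ) (h z : H →L[ℂ] H) (w : ℂ) : H →L[ℂ] H :=
  (Complex.exp (-θ * w) * (2 * Complex.I)⁻¹ * (dslope Sh 0 w)⁻¹) • dslope (K h z) 0 w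

theorem Psi_eq (θ : ℝ) (h z : H →L[ℂ] H) (w : ℂ) (hw : w ≠ 0) (hS : Sh w ≠ 0) :
    Psi θ h z w = (Complex.exp (-θ * w) * (2 * Complex.I)⁻¹ * (Sh w)⁻¹) • (K h z w - z) := by
  unfold Psi
  rw [dslope_of_ne _ hw, dslope_of_ne _ hw, slope_def_module, slope_def_module, Sh_zero, K_zero,
    smul_smul]
  simp only [sub_zero, smul_eq_mul]
  congr 1
  field_simp

theorem Psi_diff (θ : ℝ) (h z : H →L[ℂ] H) :
    DifferentiableOn ℂ (Psi θ h z) {w : ℂ | |w.im| < 1} := by
  intro w hw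
  apply DifferentiableAt.differentiableWithinAt
  have h1 : DifferentiableAt ℂ (fun w : ℂ => Complex.exp (-θ * w) * (2 * Complex.I)⁻¹ *
      (dslope Sh 0 w)⁻¹) w := by
    apply DifferentiableAt.mul
    · apply DifferentiableAt.mul_const
      fun_prop
    · exact (dS_diff w).inv (dS_ne w hw)
  exact h1.smul (dK_diff h z w)

theorem Psi_vert (θ : ℝ) (h z : H →L[ℂ] H) (hh : star h = h) :
    ∃ C : ℝ, 0 ≤ C ∧ ∀ t s : ℝ, 1 ≤ |t| → |s| ≤ 1 / 2 → ‖Psi θ h z (t + s * Complex.I)‖ ≤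
      C * Real.exp (-(Real.pi - |θ|) * |t|) := by
  obtain ⟨M, hM0, hM⟩ := K_bound h z hh
  refine ⟨2 * (M + ‖z‖), by positivity, fun t s ht hs => ?_⟩
  have hsinh : Real.exp (Real.pi * |t|) / 4 ≤ ‖Sh (t + s * Complex.I)‖ := by
    refine le_trans ?_ (norm_Sh t s).1
    rw [Real.abs_sinh, abs_mul, abs_of_pos Real.pi_pos, Real.sinh_eq]
    have h1 : Real.exp (-(Real.pi * |t|)) ≤ Real.exp (Real.pi * |t|) / 2 := by
      have h2 : 1 ≤ Real.pi * |t| := by nlinarith [Real.pi_gt_three]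
      have h3 : Real.exp (-(Real.pi * |t|)) ≤ 1 := by
        rw [Real.exp_le_one_iff]; linarith
      have h4 := Real.add_one_le_exp (Real.pi * |t|)
      linarith
    linarith
  have hpos : 0 < ‖Sh (t + s * Complex.I)‖ := lt_of_lt_of_le (by positivity) hsinh
  have hS : Sh (t + s * Complex.I) ≠ 0 := norm_pos_iff.mp hpos
  have hw : ((t : ℂ) + s * Complex.I) ≠ 0 := by
    intro h0
    rw [h0, Sh_zero] at hS
    exact hS rfl
  rw [Psi_eq θ h z _ hw hS, norm_smul, norm_mul, norm_mul, norm_inv, norm_inv, norm_mul]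
  have h2I : ‖(2 : ℂ)‖ * ‖Complex.I‖ = 2 := by simp
  rw [h2I]
  have h5 : ‖Complex.exp (-θ * (t + s * Complex.I))‖ ≤ Real.exp (|θ| * |t|) := by
    rw [Complex.norm_exp]
    apply Real.exp_le_exp.mpr
    have : ((-(θ : ℂ)) * (t + s * Complex.I)).re = -(θ * t) := by simp
    rw [this, ← abs_mul]
    exact neg_le_abs _
  have h6 : ‖K h z (t + s * Complex.I) - z‖ ≤ M + ‖z‖ :=
    (norm_sub_le _ _).trans (by gcongr; exact hM t s hs)
  have h7 : ‖Sh (t + s * Complex.I)‖⁻¹ ≤ 4 * Real.exp (-(Real.pi * |t|)) := by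
    rw [Real.exp_neg, inv_le_comm₀ hpos (by positivity)]
    rw [mul_inv, inv_inv]
    linarith
  calc _ ≤ Real.exp (|θ| * |t|) * 2⁻¹ * (4 * Real.exp (-(Real.pi * |t|))) * (M + ‖z‖) := by
        gcongr
    _ = 2 * (M + ‖z‖) * (Real.exp (|θ| * |t|) * Real.exp (-(Real.pi * |t|))) := by ring
    _ = _ := by rw [← Real.exp_add]; congr 2; ring

theorem Sh_low (t : ℝ) : Sh (t + ((-(1 / 2) : ℝ) : ℂ) * Complex.I) =
    -Complex.I * Real.cosh (Real.pi * t) := by
  unfold Sh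
  have : (Real.pi : ℂ) * (t + ((-(1 / 2) : ℝ) : ℂ) * Complex.I) =
      (Real.pi : ℂ) * t - (Real.pi / 2 : ℂ) * Complex.I := by push_cast; ring
  rw [this, Complex.sinh_sub, Complex.cosh_mul_I, Complex.sinh_mul_I, Complex.cos_pi_div_two,
    Complex.sin_pi_div_two]
  push_cast
  ring

theorem Sh_up (t : ℝ) : Sh (t + ((1 / 2 : ℝ) : ℂ) * Complex.I) =
    Complex.I * Real.cosh (Real.pi * t) := by
  unfold Sh
  have : (Real.pi : ℂ) * (t + ((1 / 2 : ℝ) : ℂ) * Complex.I) =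
      (Real.pi : ℂ) * t + (Real.pi / 2 : ℂ) * Complex.I := by push_cast; ring
  rw [this, Complex.sinh_add, Complex.cosh_mul_I, Complex.sinh_mul_I, Complex.cos_pi_div_two,
    Complex.sin_pi_div_two]
  push_cast
  ring

/-- the conjugates -/
def Y (h z : H →L[ℂ] H) (t : ℝ) : H →L[ℂ] H :=
  NormedSpace.exp ((Complex.I * t) • h) * z * NormedSpace.exp (-(Complex.I * t) • h)

theorem Y_eq (h z : H →L[ℂ] H) (t : ℝ) : Y h z t = K h z t := rfl

theorem Y_cont (h z : H →L[ℂ] H) : Continuous (Y h z) :=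
  (K_diff h z).continuous.comp Complex.continuous_ofReal

theorem Y_bound (h z : H →L[ℂ] H) (hh : star h = h) : ∃ M : ℝ, ∀ t, ‖Y h z t‖ ≤ M := by
  obtain ⟨M, _, hM⟩ := K_bound h z hh
  refine ⟨M, fun t => ?_⟩
  have := hM t 0 (by norm_num)
  rw [Y_eq]
  simpa using this

theorem Psi_low (θ : ℝ) (h z : H →L[ℂ] H) (t : ℝ) :
    Psi θ h z (t + ((-(1 / 2) : ℝ) : ℂ) * Complex.I) =
    (kt θ t : ℂ) • (Complex.exp (Complex.I * θ / 2) • (NormedSpace.exp ((1 / 2 : ℂ) • h) * Y h z t *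
        NormedSpace.exp (-(1 / 2 : ℂ) • h) - z)) := by
  have hcosh : (Real.cosh (Real.pi * t) : ℂ) ≠ 0 := by
    exact_mod_cast (Real.cosh_pos _).ne'
  have hS : Sh (t + ((-(1 / 2) : ℝ) : ℂ) * Complex.I) ≠ 0 := by
    rw [Sh_low]
    exact mul_ne_zero (neg_ne_zero.mpr Complex.I_ne_zero) hcosh
  have hw : ((t : ℂ) + ((-(1 / 2) : ℝ) : ℂ) * Complex.I) ≠ 0 := by
    intro h0
    rw [h0, Sh_zero] at hS
    exact hS rfl
  rw [Psi_eq θ h z _ hw hS, Sh_low, smul_smul]
  congr 1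
  · have e1 : Complex.exp (-θ * (t + ((-(1 / 2) : ℝ) : ℂ) * Complex.I)) =
        Complex.exp (-θ * t) * Complex.exp (Complex.I * θ / 2) := by
      rw [← Complex.exp_add]; congr 1; push_cast; ring
    rw [e1]
    unfold kt
    push_cast at hcosh ⊢
    have hI : Complex.I * Complex.I = -1 := Complex.I_mul_I
    field_simp
    rw [Complex.I_sq]
    ring
  · congr 1
    rw [add_comm, K_add, Y_eq]
    have e2 : Complex.I * (((-(1 / 2) : ℝ) : ℂ) * Complex.I) = (1 / 2 : ℂ) := by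
      rw [mul_left_comm, Complex.I_mul_I]; push_cast; ring
    rw [e2]

theorem Psi_up (θ : ℝ) (h z : H →L[ℂ] H) (t : ℝ) :
    Psi θ h z (t + ((1 / 2 : ℝ) : ℂ) * Complex.I) =
    -((kt θ t : ℂ) • (Complex.exp (-(Complex.I * θ / 2)) •
      (NormedSpace.exp (-(1 / 2 : ℂ) • h) * Y h z t * NormedSpace.exp ((1 / 2 : ℂ) • h) - z))) := by
  have hcosh : (Real.cosh (Real.pi * t) : ℂ) ≠ 0 := by
    exact_mod_cast (Real.cosh_pos _).ne'
  have hS : Sh (t + ((1 / 2 : ℝ) : ℂ) * Complex.I) ≠ 0 := by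
    rw [Sh_up]
    exact mul_ne_zero Complex.I_ne_zero hcosh
  have hw : ((t : ℂ) + ((1 / 2 : ℝ) : ℂ) * Complex.I) ≠ 0 := by
    intro h0
    rw [h0, Sh_zero] at hS
    exact hS rfl
  rw [Psi_eq θ h z _ hw hS, Sh_up, smul_smul, ← neg_smul]
  congr 1
  · have e1 : Complex.exp (-θ * (t + ((1 / 2 : ℝ) : ℂ) * Complex.I)) =
        Complex.exp (-θ * t) * Complex.exp (-(Complex.I * θ / 2)) := by
      rw [← Complex.exp_add]; congr 1; push_cast; ring
    rw [e1]
    unfold kt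
    push_cast at hcosh ⊢
    field_simp
    rw [Complex.I_sq]
    ring
  · congr 1
    rw [add_comm, K_add, Y_eq]
    have e2 : Complex.I * (((1 / 2 : ℝ) : ℂ) * Complex.I) = -(1 / 2 : ℂ) := by
      rw [mul_left_comm, Complex.I_mul_I]; push_cast; ring
    rw [e2, neg_neg]


/-- multiplication from both sides -/
def LR (a b : H →L[ℂ] H) : (H →L[ℂ] H) →L[ℂ] (H →L[ℂ] H) :=
  ((ContinuousLinearMap.mul ℂ (H →L[ℂ] H)).flip b).comp (ContinuousLinearMap.mul ℂ (H →L[ℂ] H) a)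

theorem LR_apply (a b x : H →L[ℂ] H) : LR a b x = a * x * b := rfl

theorem int_side (θ : ℝ) (hθ : |θ| < Real.pi) (h z : H →L[ℂ] H) (hh : star h = h) (c : ℂ)
    (a b : H →L[ℂ] H) :
    Integrable (fun t : ℝ => (kt θ t : ℂ) • (c • (a * Y h z t * b - z))) ∧
    ∫ t : ℝ, (kt θ t : ℂ) • (c • (a * Y h z t * b - z)) =
      c • (a * (∫ t : ℝ, (kt θ t : ℂ) • Y h z t) * b) - (c * ((∫ t : ℝ, kt θ t : ℝ) : ℂ)) • z := by
  obtain ⟨M, hM⟩ := Y_bound h z hh
  have hY : Integrable (fun t : ℝ => (kt θ t : ℂ) • Y h z t) :=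
    kt_smul_int θ hθ _ (Y_cont h z) M hM
  have hk : Integrable (fun t : ℝ => (kt θ t : ℂ)) := (kt_int θ hθ).ofReal
  have h1 : Integrable (fun t : ℝ => LR a b ((kt θ t : ℂ) • Y h z t)) :=
    (LR a b).integrable_comp hY
  have h2 : Integrable (fun t : ℝ => (kt θ t : ℂ) • z) := hk.smul_const z
  have e : (fun t : ℝ => (kt θ t : ℂ) • (c • (a * Y h z t * b - z))) =
      fun t : ℝ => c • (LR a b ((kt θ t : ℂ) • Y h z t)) - c • ((kt θ t : ℂ) • z) := by
    funext t
    rw [map_smul, LR_apply, smul_comm, ← smul_sub, ← smul_sub]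
  rw [e]
  have h1' : Integrable (fun t : ℝ => c • (LR a b ((kt θ t : ℂ) • Y h z t))) := h1.smul c
  have h2' : Integrable (fun t : ℝ => c • ((kt θ t : ℂ) • z)) := h2.smul c
  refine ⟨h1'.sub h2', ?_⟩
  rw [integral_sub h1' h2', integral_smul, integral_smul, integral_smul_const,
    ContinuousLinearMap.integral_comp_comm _ hY, LR_apply, mul_smul]
  congr 3
  exact integral_ofReal

theorem exp_decay (a C : ℝ) (ha : 0 < a) :
    Tendsto (fun N : ℕ => C * Real.exp (-a * |((N : ℝ) + 1)|)) atTop (𝓝 0) := by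
  have h1 : Tendsto (fun N : ℕ => a * ((N : ℝ) + 1)) atTop atTop :=
    (tendsto_natCast_atTop_atTop.atTop_add tendsto_const_nhds).const_mul_atTop ha
  have h2 := (Real.tendsto_exp_neg_atTop_nhds_zero.comp h1).const_mul C
  rw [mul_zero] at h2
  apply h2.congr
  intro N
  simp only [Function.comp_apply]
  rw [abs_of_nonneg (by positivity)]
  congr 2; ring

end TSylAux

open TSylAux KtAux TLocAux MeasureTheory

theorem prove_T_syl : T_syl := by
  intro H _ _ _ h z hh θ hθ X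
  set E : H →L[ℂ] H := NormedSpace.exp ((1 / 2 : ℂ) • h) with hE
  set E' : H →L[ℂ] H := NormedSpace.exp (-(1 / 2 : ℂ) • h) with hE'
  set c1 : ℂ := Complex.exp (Complex.I * θ / 2) with hc1
  set c2 : ℂ := Complex.exp (-(Complex.I * θ / 2)) with hc2
  have hX : X = ∫ t : ℝ, (kt θ t : ℂ) • Y h z t := rfl
  obtain ⟨i1, v1⟩ := int_side θ hθ h z hh c1 E E'
  obtain ⟨i2, v2⟩ := int_side θ hθ h z hh c2 E' E
  have L1 : (fun t : ℝ => Psi θ h z (t + ((-(1 / 2) : ℝ) : ℂ) * Complex.I)) =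
      fun t : ℝ => (kt θ t : ℂ) • (c1 • (E * Y h z t * E' - z)) := by
    funext t; exact Psi_low θ h z t
  have L2 : (fun t : ℝ => Psi θ h z (t + ((1 / 2 : ℝ) : ℂ) * Complex.I)) =
      fun t : ℝ => -((kt θ t : ℂ) • (c2 • (E' * Y h z t * E - z))) := by
    funext t; exact Psi_up θ h z t
  have I1 : Integrable (fun t : ℝ => Psi θ h z (t + ((-(1 / 2) : ℝ) : ℂ) * Complex.I)) := by
    rw [L1]; exact i1
  have I2 : Integrable (fun t : ℝ => Psi θ h z (t + ((1 / 2 : ℝ) : ℂ) * Complex.I)) := by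
    rw [L2]; exact i2.neg
  have hN : Tendsto (fun N : ℕ => (N : ℝ) + 1) atTop atTop :=
    tendsto_natCast_atTop_atTop.atTop_add tendsto_const_nhds
  have hN' : Tendsto (fun N : ℕ => -((N : ℝ) + 1)) atTop atBot := tendsto_neg_atTop_atBot.comp hN
  have T1 := intervalIntegral_tendsto_integral I1 hN' hN
  have T2 := intervalIntegral_tendsto_integral I2 hN' hN
  obtain ⟨C, hC0, hC⟩ := Psi_vert θ h z hh
  have hd := exp_decay (Real.pi - |θ|) C (by linarith)
  have vert : ∀ σ : ℝ, |σ| = 1 → Tendsto (fun N : ℕ => Complex.I • ∫ y in (-(1 / 2) : ℝ)..(1 / 2),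
      Psi θ h z (((σ * ((N : ℝ) + 1) : ℝ) : ℂ) + y * Complex.I)) atTop (𝓝 0) := by
    intro σ hσ
    apply squeeze_zero_norm (a := fun N : ℕ => C * Real.exp (-(Real.pi - |θ|) * |((N : ℝ) + 1)|))
      _ hd
    intro N
    rw [norm_smul, Complex.norm_I, one_mul]
    have habs : |σ * ((N : ℝ) + 1)| = |((N : ℝ) + 1)| := by rw [abs_mul, hσ, one_mul]
    have h1 : 1 ≤ |σ * ((N : ℝ) + 1)| := by
      rw [habs, abs_of_nonneg (by positivity)]
      have : (0 : ℝ) ≤ N := Nat.cast_nonneg N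
      linarith
    have := intervalIntegral.norm_integral_le_of_norm_le_const (a := (-(1 / 2) : ℝ)) (b := 1 / 2)
      (f := fun y : ℝ => Psi θ h z (((σ * ((N : ℝ) + 1) : ℝ) : ℂ) + y * Complex.I))
      (C := C * Real.exp (-(Real.pi - |θ|) * |((N : ℝ) + 1)|)) (by
        intro y hy
        rw [Set.uIoc_of_le (by norm_num)] at hy
        have h2 := hC (σ * ((N : ℝ) + 1)) y h1 (abs_le.mpr ⟨hy.1.le, hy.2⟩)
        rwa [habs] at h2)
    refine this.trans (le_of_eq ?_)
    norm_num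
  have V1 := vert 1 (by simp)
  have V2 := vert (-1) (by simp)
  have rect : ∀ N : ℕ, (∫ x in (-((N : ℝ) + 1))..((N : ℝ) + 1),
        Psi θ h z (x + ((-(1 / 2) : ℝ) : ℂ) * Complex.I)) -
      (∫ x in (-((N : ℝ) + 1))..((N : ℝ) + 1), Psi θ h z (x + ((1 / 2 : ℝ) : ℂ) * Complex.I)) +
      (Complex.I • ∫ y in (-(1 / 2) : ℝ)..(1 / 2),
        Psi θ h z (((1 * ((N : ℝ) + 1) : ℝ) : ℂ) + y * Complex.I)) -
      (Complex.I • ∫ y in (-(1 / 2) : ℝ)..(1 / 2),
        Psi θ h z ((((-1) * ((N : ℝ) + 1) : ℝ) : ℂ) + y * Complex.I)) = 0 := by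
    intro N
    have := Complex.integral_boundary_rect_eq_zero_of_differentiableOn (Psi θ h z)
      ⟨-((N : ℝ) + 1), -(1 / 2)⟩ ⟨(N : ℝ) + 1, 1 / 2⟩ ((Psi_diff θ h z).mono (by
        intro w hw
        rw [Complex.mem_reProdIm] at hw
        have h2 := hw.2
        simp only at h2
        rw [Set.uIcc_of_le (by norm_num)] at h2
        show |w.im| < 1
        rw [abs_lt]
        constructor <;> linarith [h2.1, h2.2]))
    simp only at this
    rw [one_mul, neg_one_mul]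
    exact this
  have lim := ((T1.sub T2).add V1).sub V2
  have lim0 : Tendsto (fun _ : ℕ => (0 : H →L[ℂ] H)) atTop (𝓝 0) := tendsto_const_nhds
  have huniq := tendsto_nhds_unique (lim.congr rect) lim0
  rw [L1, L2, integral_neg, v1, v2, add_zero, sub_zero, sub_neg_eq_add, ← hX] at huniq
  have hcos : c1 + c2 = 2 * ((Real.cos (θ / 2) : ℝ) : ℂ) := by
    rw [hc1, hc2, Complex.ofReal_cos, Complex.cos]
    push_cast
    rw [show (θ : ℂ) / 2 * Complex.I = Complex.I * θ / 2 by ring,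
      show -((θ : ℂ) / 2) * Complex.I = -(Complex.I * θ / 2) by ring]
    ring
  have e3 : ((2 * Real.cos (θ / 2) * ∫ t : ℝ, kt θ t : ℝ) : ℂ) =
      c1 * ((∫ t : ℝ, kt θ t : ℝ) : ℂ) + c2 * ((∫ t : ℝ, kt θ t : ℝ) : ℂ) := by
    rw [← add_mul, hcos]
    push_cast
    ring
  rw [e3, add_smul]
  have e4 : c1 • (E * X * E') - (c1 * ((∫ t : ℝ, kt θ t : ℝ) : ℂ)) • z +
      (c2 • (E' * X * E) - (c2 * ((∫ t : ℝ, kt θ t : ℝ) : ℂ)) • z) = 0 := huniq
  have e5 : c1 • (E * X * E') + c2 • (E' * X * E) =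
      (c1 * ((∫ t : ℝ, kt θ t : ℝ) : ℂ)) • z + (c2 * ((∫ t : ℝ, kt θ t : ℝ) : ℂ)) • z := by
    rw [← sub_eq_zero, ← e4]
    abel
  exact e5.symm

end H68R2.BP
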